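import Pool.Agent.Helper29.SR.Props
import Pool.Agent.Helper33.RC.Rank

/-!
# Packet SR-RankT (MP_b55b7c_an)
-/

open scoped ENNReal NNReal InnerProductSpace ComplexOrder
open Filter Topology

attribute [-instance] CStarMatrix.instAlgebra CStarMatrix.instModule CStarMatrix.instSMul
  CStarMatrix.instMulAction CStarMatrix.instDistribMulAction

noncomputable section
namespace RC
universe u

open RankAux

theorem rankTP (h1 : RepFVP.{u}) (h2 : QOfTP.{u}) (h3 : QBasicP.{u}) : RankTP.{u} := by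
  intro A _ _ _ φ H _ _ _ π ρ ξ hrep z hz hz0
  obtain ⟨hFV, hπ⟩ := h1 A φ H π ρ ξ hrep
  obtain ⟨hzS, hzp, hzc⟩ := hz
  have hzξ : z ξ ≠ 0 := fun h => hz0 (hFV.sep z hzS h)
  have hre : ⟪ξ, z ξ⟫_ℂ = ((‖z ξ‖ ^ 2 : ℝ) : ℂ) := by
    rw [← proj_inner hzp, inner_self_eq_norm_sq_to_K]
    push_cast
    rfl
  have ht : tr ξ z = ‖z ξ‖ ^ 2 := by
    unfold tr
    rw [hre, Complex.ofReal_re]
  have htpos : 0 < tr ξ z := by
    rw [ht]
    have := norm_pos_iff.mpr hzξ
    positivity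
  set t : ℝ := tr ξ z with htdef
  have hre' : ⟪ξ, z ξ⟫_ℂ = (t : ℂ) := by rw [hre, ht]
  have hcomm : ∀ (x : A) (ζ : H), z (π x ζ) = π x (z ζ) := by
    intro x ζ
    have := congrArg (fun T : H →L[ℂ] H => T ζ) (hzc (π x) (hπ x))
    exact this
  let φz : TState A :=
    { φ :=
        { toFun := fun a => ⟪ξ, z (π a ξ)⟫_ℂ / (t : ℂ)
          map_add' := by
            intro a b
            rw [map_add, ContinuousLinearMap.add_apply, map_add, inner_add_right, add_div]
          map_smul' := by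
            intro c a
            rw [map_smul, ContinuousLinearMap.smul_apply, map_smul, inner_smul_right,
              RingHom.id_apply, smul_eq_mul, mul_div_assoc] }
      nonneg := by
        intro a ha
        obtain ⟨b, hb⟩ := CStarAlgebra.nonneg_iff_eq_star_mul_self.mp ha
        change 0 ≤ ⟪ξ, z (π a ξ)⟫_ℂ / (t : ℂ)
        have h4 : ⟪ξ, z (π a ξ)⟫_ℂ = ((‖z (π b ξ)‖ ^ 2 : ℝ) : ℂ) := by
          rw [hb, map_mul, map_star]
          change ⟪ξ, z (star (π b) (π b ξ))⟫_ℂ = _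
          have h5 : z (star (π b) (π b ξ)) = star (π b) (z (π b ξ)) := by
            have := hcomm (star b) (π b ξ)
            rwa [map_star] at this
          rw [h5, ContinuousLinearMap.star_eq_adjoint, ContinuousLinearMap.adjoint_inner_right,
            ← proj_inner hzp, inner_self_eq_norm_sq_to_K]
          push_cast
          rfl
        rw [h4, ← Complex.ofReal_div]
        exact_mod_cast (by positivity : (0 : ℝ) ≤ ‖z (π b ξ)‖ ^ 2 / t)
      trace := by
        intro a b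
        change ⟪ξ, z (π (a * b) ξ)⟫_ℂ / (t : ℂ) = ⟪ξ, z (π (b * a) ξ)⟫_ℂ / (t : ℂ)
        congr 1
        have h4 := hFV.trace (z * π a) (Set.mul_mem_centralizer hzS (hπ a)) (π b) (hπ b)
        rw [map_mul, map_mul]
        change ⟪ξ, z (π a (π b ξ))⟫_ℂ = ⟪ξ, z (π b (π a ξ))⟫_ℂ
        rw [hcomm b (π a ξ)]
        exact h4
      one := by
        change ⟪ξ, z (π 1 ξ)⟫_ℂ / (t : ℂ) = 1
        rw [map_one]
        change ⟪ξ, z ξ⟫_ℂ / (t : ℂ) = 1
        rw [hre']
        have : (t : ℂ) ≠ 0 := by exact_mod_cast htpos.ne'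
        exact div_self this }
  obtain ⟨σ, hσ⟩ := h2 A φz
  refine ⟨φz, σ, hσ, fun x => ?_, fun a p ha hpS hp h4 h5 => ?_⟩
  · change (t : ℂ) * (⟪ξ, z (π x ξ)⟫_ℂ / (t : ℂ)) = _
    have : (t : ℂ) ≠ 0 := by exact_mod_cast htpos.ne'
    field_simp
  have hsa : IsSelfAdjoint a := ha.isSelfAdjoint
  have hval : ∀ n : ℕ, σ.τ Unit (cfc (fun t : ℝ => min 1 ((n : ℝ) * t)) (one1 a)) =
      (⟪ξ, z (π (en a n) ξ)⟫_ℂ).re / t := by
    intro n
    rw [← one1_cfc _ (by fun_prop) a hsa, hσ]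
    rw [Fintype.sum_unique]
    change (⟪ξ, z (π (en a n) ξ)⟫_ℂ / (t : ℂ)).re = _
    rw [Complex.div_ofReal_re]
  have hlim : Tendsto (fun n : ℕ => σ.τ Unit (cfc (fun t : ℝ => min 1 ((n : ℝ) * t)) (one1 a)))
      atTop (𝓝 (tr ξ (z * p) / t)) := by
    simp only [hval]
    refine Tendsto.div_const ?_ t
    have h6 := tendsto_en π ha hp h4 h5 ξ
    have h7 : Tendsto (fun n => z (π (en a n) ξ)) atTop (𝓝 (z (p ξ))) :=
      (z.continuous.tendsto _).comp h6
    have h8 : Tendsto (fun n => ⟪ξ, z (π (en a n) ξ)⟫_ℂ) atTop (𝓝 ⟪ξ, z (p ξ)⟫_ℂ) :=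
      tendsto_const_nhds.inner h7
    exact (Complex.continuous_re.tendsto _).comp h8
  have hone : 0 ≤ one1 a := one1_nonneg ha
  obtain ⟨hbdd, -⟩ := h3 A σ Unit (one1 a) hone
  have hmono : Monotone fun n : ℕ => σ.τ Unit (cfc (fun t : ℝ => min 1 ((n : ℝ) * t)) (one1 a)) := by
    intro m n hmn
    refine σ.cfc_mono (by fun_prop) (by fun_prop) (fun s hs => ?_) (fun s hs => ?_)
    · have h0 := spectrum_nonneg_of_nonneg hone hs
      exact le_min zero_le_one (by positivity)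
    · have h0 := spectrum_nonneg_of_nonneg hone hs
      have : (m : ℝ) ≤ n := by exact_mod_cast hmn
      gcongr
  have h9 := tendsto_nhds_unique (tendsto_atTop_ciSup hmono hbdd) hlim
  have h10 : σ.dim (one1 a) = tr ξ (z * p) / t := h9
  rw [h10, div_mul_cancel₀ _ htpos.ne']

end RC
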