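import Pool.Agent.Helper29.SR.Props
import Pool.Agent.Helper10.RC.Homs

/-!
# Packet SR-Sel (MP_b55b7c_an)
-/

open scoped ENNReal NNReal InnerProductSpace ComplexOrder
open Filter Topology

attribute [-instance] CStarMatrix.instAlgebra CStarMatrix.instModule CStarMatrix.instSMul
  CStarMatrix.instMulAction CStarMatrix.instDistribMulAction

noncomputable section
namespace RC
universe u

namespace SelAux

variable {M : Type u} [CStarAlgebra M] [PartialOrder M] [StarOrderedRing M]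

/-- `(τ - s)_+ / max(τ, s)` -/
def qf (s τ : ℝ) : ℝ := max (τ - s) 0 / max τ s

theorem qf_cont {s : ℝ} (hs : 0 < s) : Continuous (qf s) := by
  unfold qf
  refine Continuous.div (by fun_prop) (by fun_prop) fun t => ?_
  have := le_max_right t s
  linarith

theorem qf_mul {s : ℝ} (hs : 0 < s) (τ : ℝ) : qf s τ * τ = max (τ - s) 0 := by
  unfold qf
  rcases le_total τ s with h | h
  · rw [max_eq_right (by linarith : τ - s ≤ 0)]
    simp
  · rw [max_eq_left (by linarith : 0 ≤ τ - s), max_eq_left h]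
    have : τ ≠ 0 := by linarith
    field_simp

theorem cut_eq {a : M} (ha : 0 ≤ a) {s : ℝ} (hs : 0 < s) : cfc (qf s) a * a = cut a s := by
  have hsa : IsSelfAdjoint a := ha.isSelfAdjoint
  unfold cut
  have h1 : cfc (qf s) a * a = cfc (qf s) a * cfc (fun x : ℝ => x) a := by
    rw [cfc_id' ℝ a]
  rw [h1, ← cfc_mul (qf s) (fun x : ℝ => x) a (qf_cont hs).continuousOn (by fun_prop)]
  exact cfc_congr fun x _ => qf_mul hs x

theorem ramp_cont {s t : ℝ} : Continuous (ramp s t) := by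
  unfold ramp
  fun_prop

theorem ramp_nonneg (s t τ : ℝ) : 0 ≤ ramp s t τ := le_max_left _ _

theorem ramp_le_one (s t τ : ℝ) : ramp s t τ ≤ 1 := max_le zero_le_one (min_le_left _ _)

theorem ramp_zero {s t τ : ℝ} (hst : s < t) (h : τ ≤ s) : ramp s t τ = 0 := by
  unfold ramp
  have : (τ - s) / (t - s) ≤ 0 := div_nonpos_of_nonpos_of_nonneg (by linarith) (by linarith)
  exact max_eq_left ((min_le_right _ _).trans this)

theorem sq_bound (a' b x : M) (ha' : 0 ≤ a') : ∃ C : ℝ, 0 ≤ C ∧ sq (b * x * a') ≤ C • a' := by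
  obtain ⟨S, hS⟩ := CStarAlgebra.nonneg_iff_eq_star_mul_self.mp ha'
  refine ⟨‖star (b * x * star S) * (b * x * star S)‖, norm_nonneg _, ?_⟩
  have e1 : sq (b * x * a') = star S * (star (b * x * star S) * (b * x * star S)) * S := by
    unfold sq
    rw [hS]
    simp only [star_mul, star_star, mul_assoc]
  have e2 : a' = star S * S := hS
  rw [e1]
  conv_rhs => rw [e2]
  exact CStarAlgebra.star_left_conjugate_le_norm_smul (IsSelfAdjoint.star_mul_self _)

theorem dim_cut_le (h3 : QBasicP.{u}) (σ : QTrace M) {a : M} (ha : 0 ≤ a) {s : ℝ}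
    (hs : 0 ≤ s) : σ.dim (one1 (cut a s)) ≤ σ.dim (one1 a) := by
  have hone : 0 ≤ one1 a := one1_nonneg ha
  obtain ⟨hbdd, -⟩ := h3 M σ Unit (one1 a) hone
  refine ciSup_le fun n => ?_
  refine le_trans ?_ (le_ciSup hbdd n)
  rw [← cut_one1 ha.isSelfAdjoint]
  unfold cut
  rw [← cfc_comp' (fun x : ℝ => min 1 ((n : ℝ) * x)) (fun x : ℝ => max (x - s) 0) (one1 a)]
  refine σ.cfc_mono (by fun_prop) (by fun_prop) (fun x _ => ?_) (fun x hx => ?_)
  · have := le_max_right (x - s) 0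
    exact le_min zero_le_one (by positivity)
  · have h0 := spectrum_nonneg_of_nonneg hone hx
    have : max (x - s) 0 ≤ x := max_le (by linarith) h0
    gcongr

theorem tau_one1 {φ : TState M} {σ : QTrace M} (h : IsQ φ σ) {a : M} (ha : 0 ≤ a) (n : ℕ) :
    σ.τ Unit (cfc (fun t : ℝ => min 1 ((n : ℝ) * t)) (one1 a)) =
      (φ.φ (cfc (fun t : ℝ => min 1 ((n : ℝ) * t)) a)).re := by
  rw [← one1_cfc _ (by fun_prop) a ha.isSelfAdjoint, h, Fintype.sum_unique]
  rfl

theorem lbound (h3 : QBasicP.{u}) {φ : TState M} {σ : QTrace M} (hσ : IsQ φ σ) {a b : M}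
    (ha : 0 ≤ a) {s : ℝ} (hs : 0 ≤ s)
    (hlt : ∀ (φ : TState M) (σ : QTrace M), IsQ φ σ → σ.dim (one1 a) < σ.dim (one1 b)) :
    LBound φ (cut a s) b (σ.dim (one1 (cut a s))) := by
  intro t ψ₁ ψ₂ σ₁ σ₂ h0 h1 hq1 hq2 hdec
  have ha' : 0 ≤ cut a s := cut_nonneg a s
  have hone : 0 ≤ one1 (cut a s) := one1_nonneg ha'
  have k1 : σ₁.dim (one1 (cut a s)) ≤ σ₁.dim (one1 b) :=
    (dim_cut_le h3 σ₁ ha hs).trans (hlt ψ₁ σ₁ hq1).le
  have key : σ.dim (one1 (cut a s)) ≤
      t * σ₁.dim (one1 (cut a s)) + (1 - t) * σ₂.dim (one1 (cut a s)) := by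
    refine ciSup_le fun n => ?_
    rw [tau_one1 hσ ha' n, hdec]
    have e : ((t : ℂ) * ψ₁.φ (cfc (fun t : ℝ => min 1 ((n : ℝ) * t)) (cut a s)) +
        (1 - (t : ℂ)) * ψ₂.φ (cfc (fun t : ℝ => min 1 ((n : ℝ) * t)) (cut a s))).re =
        t * (ψ₁.φ (cfc (fun t : ℝ => min 1 ((n : ℝ) * t)) (cut a s))).re +
        (1 - t) * (ψ₂.φ (cfc (fun t : ℝ => min 1 ((n : ℝ) * t)) (cut a s))).re := by
      have : (1 - (t : ℂ)) = ((1 - t : ℝ) : ℂ) := by push_cast; rfl
      rw [this, Complex.add_re, Complex.re_ofReal_mul, Complex.re_ofReal_mul]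
    rw [e, ← tau_one1 hq1 ha' n, ← tau_one1 hq2 ha' n]
    have b1 := le_ciSup (h3 M σ₁ Unit _ hone).1 n
    have b2 := le_ciSup (h3 M σ₂ Unit _ hone).1 n
    exact add_le_add (mul_le_mul_of_nonneg_left b1 h0)
      (mul_le_mul_of_nonneg_left b2 (by linarith))
  refine key.trans ?_
  have := mul_le_mul_of_nonneg_left k1 h0
  linarith

end SelAux

open SelAux

theorem selP (hL : LocMaxP.{u}) (hC : CoverP.{u}) (hR : RkP.{u}) (hQ : QOfTP.{u})
    (h3 : QBasicP.{u}) : SelP.{u} := by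
  intro M _ _ _ a b ha hb hlt s t ε hs hst hε
  have hr : 0 < ε / 16 := by positivity
  have ha' : 0 ≤ cut a s := cut_nonneg a s
  -- the test elements
  set f : M → M := fun X0 => cfc (ramp (ε / 16) (2 * (ε / 16))) (sq (b * X0 * cut a s)) -
    cfc (ramp s t) a + ((ε : ℝ) : ℂ) • (1 : M) with hf
  have hfφ : ∀ (φ : TState M) (X0 : M), (φ.φ (f X0)).re =
      (φ.φ (cfc (ramp (ε / 16) (2 * (ε / 16))) (sq (b * X0 * cut a s)))).re -
        (φ.φ (cfc (ramp s t) a)).re + ε := by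
    intro φ X0
    simp only [hf]
    rw [map_add, map_sub, map_smul, φ.one, Complex.add_re, Complex.sub_re, smul_eq_mul, mul_one,
      Complex.ofReal_re]
  have hex : ∀ φ : TState M, ∃ X0 : M, 0 < (φ.φ (f X0)).re := by
    intro φ
    obtain ⟨σ, hσ⟩ := hQ M φ
    obtain ⟨X0, hX0⟩ := hL M φ (cut a s) b (σ.dim (one1 (cut a s))) ha' hb
      (lbound h3 hσ ha hs.le hlt) (ε / 2) (ε / 16) hr (by linarith)
    have hk := (hR M φ σ hσ a ha (ramp s t) (fun x => max (x - s) 0) ramp_cont (by fun_prop)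
      (ramp_nonneg s t) (fun x => le_max_right _ _)).1 (ramp_le_one s t) (fun x hx => by
        refine ramp_zero hst ?_
        have := le_max_left (x - s) 0
        linarith)
    refine ⟨X0, ?_⟩
    rw [hfφ]
    have hk' : (φ.φ (cfc (ramp s t) a)).re ≤ σ.dim (one1 (cut a s)) := hk
    linarith
  obtain ⟨T, hT⟩ := hC M M f hex
  have hCb : ∀ x : M, ∃ C : ℝ, 0 ≤ C ∧ sq (b * x * cut a s) ≤ C • cut a s :=
    fun x => sq_bound _ b x ha'
  choose Cf hC0 hC1 using hCb
  have hbX : ∀ x : M, b * (x * cfc (qf s) a) * a = b * x * cut a s := by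
    intro x
    rw [← cut_eq ha hs]
    simp only [mul_assoc]
  refine ⟨T.card, fun k => (T.equivFin.symm k : M) * cfc (qf s) a, ε / 16, ∑ x ∈ T, Cf x, hr,
    fun k => ?_, fun φ => ?_⟩
  · rw [hbX]
    refine (hC1 _).trans ?_
    have hmem : ((T.equivFin.symm k : T) : M) ∈ T := (T.equivFin.symm k).2
    have := Finset.single_le_sum (f := Cf) (fun x _ => hC0 x) hmem
    exact smul_le_smul_of_nonneg_right this ha'
  · obtain ⟨x, hx, hpos⟩ := hT φ
    refine ⟨T.equivFin ⟨x, hx⟩, ?_⟩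
    simp only [Equiv.symm_apply_apply]
    rw [hbX]
    rw [hfφ] at hpos
    linarith

end RC
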